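import Mathlib

set_option autoImplicit false

namespace Pool.Agent.TwinSat

open SimpleGraph

/-- `G` is `H`-saturated: `G` has no subgraph isomorphic to `H`, and adding any missing edge to `G`
creates a subgraph isomorphic to `H`. -/
def Saturated {W V : Type*} (H : SimpleGraph W) (G : SimpleGraph V) : Prop :=
  ¬ H.IsContained G ∧
    ∀ u v : V, u ≠ v → ¬ G.Adj u v → H.IsContained (G ⊔ SimpleGraph.edge u v)

/-- No two distinct vertices of `G` have the same neighbourhood. -/
def TwinFree {V : Type*} (G : SimpleGraph V) : Prop :=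
  ∀ u v : V, u ≠ v → G.neighborSet u ≠ G.neighborSet v

/-- For some constant `C` and all large `n` there is a twin-free `H`-saturated graph with `n`
vertices and at most `C * n` edges; that is, `H` is admissible and `tsat(n, H) = O(n)`. -/
def LinearTsat {W : Type*} (H : SimpleGraph W) : Prop :=
  ∃ C n₀ : ℕ, ∀ n ≥ n₀, ∃ G : SimpleGraph (Fin n),
    Saturated H G ∧ TwinFree G ∧ G.edgeSet.ncard ≤ C * n

/-- First sufficient condition: there is a set `X` of vertices such that the largest component
`D₁ ∪ D₂` of `H - X` is unique, has at least `3` vertices and has a bridge `x y` (with sides `D₁`,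
`D₂`), and no set of `|X|` vertices leaves only components with fewer than `|D₁| + |D₂|`
vertices. -/
def BridgeCond {W : Type*} (H : SimpleGraph W) : Prop :=
  ∃ (X D₁ D₂ : Finset W) (x y : W),
    x ∈ D₁ ∧ y ∈ D₂ ∧ H.Adj x y ∧ Disjoint D₁ D₂ ∧ Disjoint X D₁ ∧ Disjoint X D₂ ∧
    3 ≤ D₁.card + D₂.card ∧
    (∀ u ∈ D₁, ∀ v, v ∉ X → H.Adj u v → v ∈ D₁ ∨ (u = x ∧ v = y)) ∧
    (∀ u ∈ D₂, ∀ v, v ∉ X → H.Adj u v → v ∈ D₂ ∨ (u = y ∧ v = x)) ∧
    (∀ S : Finset W, Disjoint S X → Disjoint S D₁ → Disjoint S D₂ →
      (H.induce (S : Set W)).Connected → S.card < D₁.card + D₂.card) ∧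
    (∀ Y : Finset W, Y.card = X.card → ∃ S : Finset W, Disjoint S Y ∧
      D₁.card + D₂.card ≤ S.card ∧ (H.induce (S : Set W)).Connected)

/-- Second sufficient condition: there is a set `X` of vertices such that `H - X` is the disjoint
union of a triangle `x y z`, single edges and isolated vertices, and no set of `|X|` vertices
meets all triangles of `H`. -/
def TriangleCond {W : Type*} (H : SimpleGraph W) : Prop :=
  ∃ (X : Finset W) (x y z : W),
    x ∉ X ∧ y ∉ X ∧ z ∉ X ∧ H.Adj x y ∧ H.Adj y z ∧ H.Adj x z ∧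
    (∀ u, u ∉ X → u ≠ x → u ≠ y → u ≠ z → ¬ H.Adj u x ∧ ¬ H.Adj u y ∧ ¬ H.Adj u z) ∧
    (∀ u v w, u ∉ X → v ∉ X → w ∉ X → u ≠ x → u ≠ y → u ≠ z → H.Adj u v → H.Adj u w → v = w) ∧
    (∀ Y : Finset W, Y.card = X.card → ∃ a b c : W,
      a ∉ Y ∧ b ∉ Y ∧ c ∉ Y ∧ H.Adj a b ∧ H.Adj b c ∧ H.Adj a c)

/-- `H` is maximally connected: `H` has positive minimum degree, and deleting fewer vertices than
the minimum degree never disconnects `H` (the vertex connectivity equals the minimum degree). -/
def MaxConnected {W : Type*} [Fintype W] (H : SimpleGraph W) [DecidableRel H.Adj] : Prop :=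
  1 ≤ H.minDegree ∧
    ∀ Y : Finset W, Y.card < H.minDegree → (H.induce ((Y : Set W)ᶜ)).Connected

/-! ### Transport along equivalences -/

theorem isContained_iff {W V : Type*} (H : SimpleGraph W) (G : SimpleGraph V) :
    H.IsContained G ↔ ∃ f : W → V, Function.Injective f ∧ ∀ a b, H.Adj a b → G.Adj (f a) (f b) := by
  constructor
  · rintro ⟨φ⟩
    exact ⟨φ, φ.injective, fun a b h => φ.toHom.map_adj h⟩
  · rintro ⟨f, hf, hadj⟩
    exact ⟨⟨⟨f, fun {a b} h => hadj a b h⟩, hf⟩⟩

theorem transport {W V : Type*} [Fintype V] (H : SimpleGraph W) (G : SimpleGraph V) {n : ℕ}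
    (hn : Fintype.card V = n) (hs : Saturated H G) (ht : TwinFree G) {m : ℕ}
    (hm : G.edgeSet.ncard ≤ m) : ∃ G' : SimpleGraph (Fin n),
      Saturated H G' ∧ TwinFree G' ∧ G'.edgeSet.ncard ≤ m := by
  let e : V ≃ Fin n := Fintype.equivFinOfCardEq hn
  refine ⟨G.comap e.symm, ⟨?_, ?_⟩, ?_, ?_⟩
  · intro h
    rw [isContained_iff] at h
    obtain ⟨f, hf, hadj⟩ := h
    apply hs.1
    rw [isContained_iff]
    exact ⟨fun w => e.symm (f w), fun a b hab => hf (e.symm.injective hab),
      fun a b h => hadj a b h⟩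
  · intro u v huv hadj
    have h1 := hs.2 (e.symm u) (e.symm v) (fun h => huv (e.symm.injective h)) hadj
    rw [isContained_iff] at h1 ⊢
    obtain ⟨f, hf, hfa⟩ := h1
    refine ⟨fun w => e (f w), fun a b hab => hf (e.injective hab), fun a b h => ?_⟩
    have h2 := hfa a b h
    rw [SimpleGraph.sup_adj, SimpleGraph.edge_adj] at h2 ⊢
    rcases h2 with h2 | ⟨h2, h3⟩
    · left
      show G.Adj (e.symm (e (f a))) (e.symm (e (f b)))
      rwa [Equiv.symm_apply_apply, Equiv.symm_apply_apply]
    · right
      refine ⟨?_, fun h => h3 (e.injective h)⟩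
      rcases h2 with ⟨h4, h5⟩ | ⟨h4, h5⟩
      · left
        exact ⟨by show e (f a) = u; rw [h4]; simp, by show e (f b) = v; rw [h5]; simp⟩
      · right
        exact ⟨by show e (f a) = v; rw [h4]; simp, by show e (f b) = u; rw [h5]; simp⟩
  · intro u v huv heq
    apply ht (e.symm u) (e.symm v) (fun h => huv (e.symm.injective h))
    ext w
    have := congrArg (fun s : Set (Fin n) => e w ∈ s) heq
    simpa using this
  · have hfin : G.edgeSet.Finite := Set.toFinite _
    have h1 : (G.comap e.symm).edgeSet ⊆ (Sym2.map e) '' G.edgeSet := by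
      intro s
      induction s using Sym2.ind with
      | _ u v =>
        intro h
        refine ⟨s(e.symm u, e.symm v), h, ?_⟩
        simp
    calc (G.comap e.symm).edgeSet.ncard ≤ ((Sym2.map e) '' G.edgeSet).ncard :=
          Set.ncard_le_ncard h1 (hfin.image _)
      _ ≤ G.edgeSet.ncard := Set.ncard_image_le hfin
      _ ≤ m := hm

/-! ### Adding hubs -/

/-- The join of the complete graph on `Fin j` with the graph `R`. -/
def hubJoin {V : Type*} (j : ℕ) (R : SimpleGraph V) : SimpleGraph (Fin j ⊕ V) where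
  Adj
    | .inl a, .inl b => a ≠ b
    | .inl _, .inr _ => True
    | .inr _, .inl _ => True
    | .inr u, .inr v => R.Adj u v
  symm := ⟨by
    rintro (a | u) (b | v) h
    · exact h.symm
    · trivial
    · trivial
    · exact R.adj_symm h⟩
  loopless := ⟨by
    rintro (a | u) h
    · exact h rfl
    · exact R.loopless.irrefl u h⟩

theorem hubJoin_saturated {W V : Type*} [Fintype W] [Nonempty V] (H : SimpleGraph W)
    (R : SimpleGraph V) {j : ℕ} (hj : j ≤ Fintype.card W)
    (h1 : ∀ Y : Finset W, Y.card = j → ∀ f : W → V, Set.InjOn f ((Y : Set W)ᶜ) →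
      ¬ ∀ a b, a ∉ Y → b ∉ Y → H.Adj a b → R.Adj (f a) (f b))
    (h2 : ∀ u v : V, u ≠ v → ¬ R.Adj u v → ∃ X : Finset W, X.card = j ∧ ∃ f : W → V,
      Set.InjOn f ((X : Set W)ᶜ) ∧ ∀ a b, a ∉ X → b ∉ X → H.Adj a b →
        (R ⊔ SimpleGraph.edge u v).Adj (f a) (f b)) :
    Saturated H (hubJoin j R) := by
  classical
  constructor
  · intro hc
    rw [isContained_iff] at hc
    obtain ⟨f, hf, hadj⟩ := hc
    let Y0 : Finset W := Finset.univ.filter fun w => (f w).isLeft
    have hY0 : Y0.card ≤ j := by
      have h3 : Y0.image f ⊆ (Finset.univ : Finset (Fin j)).map Function.Embedding.inl := by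
        intro p hp
        obtain ⟨w, hw, rfl⟩ := Finset.mem_image.1 hp
        have hw' : (f w).isLeft = true := (Finset.mem_filter.1 hw).2
        obtain ⟨a, ha⟩ := Sum.isLeft_iff.1 hw'
        rw [ha]
        exact Finset.mem_map_of_mem _ (Finset.mem_univ a)
      calc Y0.card = (Y0.image f).card := (Finset.card_image_of_injective _ hf).symm
        _ ≤ _ := Finset.card_le_card h3
        _ = j := by simp
    obtain ⟨Y, hY0Y, hY⟩ := Finset.exists_superset_card_eq hY0 hj
    have hr : ∀ w, w ∉ Y → ∃ v, f w = Sum.inr v := by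
      intro w hw
      have h4 : w ∉ Y0 := fun h => hw (hY0Y h)
      have h5 : ¬ (f w).isLeft = true := fun h => h4 (Finset.mem_filter.2 ⟨Finset.mem_univ _, h⟩)
      rcases h6 : f w with a | v
      · rw [h6] at h5
        exact absurd rfl h5
      · exact ⟨v, rfl⟩
    let g : W → V := fun w => Sum.elim (fun _ => Classical.arbitrary V) id (f w)
    have hg : ∀ w, w ∉ Y → f w = Sum.inr (g w) := by
      intro w hw
      obtain ⟨v, hv⟩ := hr w hw
      simp [g, hv]
    refine h1 Y hY g ?_ ?_
    · intro a ha b hb hab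
      apply hf
      rw [hg a (by simpa using ha), hg b (by simpa using hb), hab]
    · intro a b ha hb hab
      have h7 := hadj a b hab
      rw [hg a ha, hg b hb] at h7
      exact h7
  · rintro (a | u) (b | v) huv hnadj
    · exact absurd (show (hubJoin j R).Adj (Sum.inl a) (Sum.inl b) from
        fun h => huv (by rw [h])) hnadj
    · exact absurd trivial hnadj
    · exact absurd trivial hnadj
    · obtain ⟨X, hX, f, hf, hadj⟩ := h2 u v (fun h => huv (by rw [h])) hnadj
      have e : X ≃ Fin j := Finset.equivFinOfCardEq hX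
      rw [isContained_iff]
      refine ⟨fun w => if h : w ∈ X then Sum.inl (e ⟨w, h⟩) else Sum.inr (f w), ?_, ?_⟩
      · intro a b hab
        simp only at hab
        split_ifs at hab with h3 h4 h4
        · have h5 := e.injective (Sum.inl_injective hab)
          exact congrArg Subtype.val h5
        · exact hf (by simpa using h3) (by simpa using h4) (Sum.inr_injective hab)
      · intro a b hab
        have hne : a ≠ b := hab.ne
        rw [SimpleGraph.sup_adj]
        by_cases h3 : a ∈ X
        · left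
          by_cases h4 : b ∈ X
          · simp only [h3, h4, dif_pos]
            show e ⟨a, h3⟩ ≠ e ⟨b, h4⟩
            intro h
            exact hne (congrArg Subtype.val (e.injective h))
          · simp only [h3, h4, dif_pos, dif_neg, not_false_iff]
            trivial
        · by_cases h4 : b ∈ X
          · left
            simp only [h3, h4, dif_pos, dif_neg, not_false_iff]
            trivial
          · simp only [h3, h4, dif_neg, not_false_iff]
            have h5 := hadj a b h3 h4 hab
            rw [SimpleGraph.sup_adj, SimpleGraph.edge_adj] at h5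
            rcases h5 with h5 | ⟨h5, h6⟩
            · left; exact h5
            · right
              rw [SimpleGraph.edge_adj]
              refine ⟨?_, fun h => h6 (Sum.inr_injective h)⟩
              rcases h5 with ⟨h7, h8⟩ | ⟨h7, h8⟩
              · left; rw [h7, h8]; exact ⟨rfl, rfl⟩
              · right; rw [h7, h8]; exact ⟨rfl, rfl⟩

theorem hubJoin_twinFree {V : Type*} (j : ℕ) (R : SimpleGraph V) (hR : TwinFree R) :
    TwinFree (hubJoin j R) := by
  rintro (a | u) (b | v) huv heq
  · have h1 : (Sum.inl b : Fin j ⊕ V) ∈ (hubJoin j R).neighborSet (Sum.inl a) :=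
      fun h => huv (by rw [h])
    rw [heq] at h1
    exact (hubJoin j R).irrefl ((SimpleGraph.mem_neighborSet _ _ _).1 h1)
  · have h1 : (Sum.inr v : Fin j ⊕ V) ∈ (hubJoin j R).neighborSet (Sum.inl a) := trivial
    rw [heq] at h1
    exact (hubJoin j R).irrefl ((SimpleGraph.mem_neighborSet _ _ _).1 h1)
  · have h1 : (Sum.inl b : Fin j ⊕ V) ∈ (hubJoin j R).neighborSet (Sum.inr u) := trivial
    rw [heq] at h1
    exact (hubJoin j R).irrefl ((SimpleGraph.mem_neighborSet _ _ _).1 h1)
  · apply hR u v (fun h => huv (by rw [h]))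
    ext w
    have := congrArg (fun s : Set (Fin j ⊕ V) => Sum.inr w ∈ s) heq
    have h2 : ((hubJoin j R).Adj (Sum.inr u) (Sum.inr w)) =
      ((hubJoin j R).Adj (Sum.inr v) (Sum.inr w)) := this
    exact iff_of_eq h2

theorem hubJoin_edges {V : Type*} [Fintype V] (j : ℕ) (R : SimpleGraph V) {m : ℕ}
    (hm : R.edgeSet.ncard ≤ m) :
    (hubJoin j R).edgeSet.ncard ≤ j * (j + Fintype.card V) + m := by
  have h1 : (hubJoin j R).edgeSet ⊆
      (fun p : Fin j × (Fin j ⊕ V) => s(Sum.inl p.1, p.2)) '' Set.univ ∪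
        (Sym2.map Sum.inr) '' R.edgeSet := by
    intro s
    induction s using Sym2.ind with
    | _ p q =>
      intro h
      rcases p with a | u
      · left
        exact ⟨(a, q), trivial, rfl⟩
      · rcases q with b | v
        · left
          exact ⟨(b, Sum.inr u), trivial, Sym2.eq_swap⟩
        · right
          exact ⟨s(u, v), h, rfl⟩
  have hfin : R.edgeSet.Finite := Set.toFinite _
  calc (hubJoin j R).edgeSet.ncard ≤ _ := Set.ncard_le_ncard h1 (Set.toFinite _)
    _ ≤ ((fun p : Fin j × (Fin j ⊕ V) => s(Sum.inl p.1, p.2)) '' Set.univ).ncard +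
        ((Sym2.map (Sum.inr : V → Fin j ⊕ V)) '' R.edgeSet).ncard := Set.ncard_union_le _ _
    _ ≤ (Set.univ : Set (Fin j × (Fin j ⊕ V))).ncard + R.edgeSet.ncard :=
        add_le_add (Set.ncard_image_le Set.finite_univ) (Set.ncard_image_le hfin)
    _ ≤ j * (j + Fintype.card V) + m := by
        refine add_le_add ?_ hm
        rw [Set.ncard_univ, Nat.card_eq_fintype_card]
        simp

end Pool.Agent.TwinSat
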