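import Mathlib
import Pool.Agent.TwinSat.Basic

set_option autoImplicit false

namespace Pool.Agent.TwinSat

open SimpleGraph Finset

/-- disjoint union of cliques, given by a labelling of the vertices -/
def labGraph {V ι : Type*} (lab : V → ι) : SimpleGraph V where
  Adj u v := u ≠ v ∧ lab u = lab v
  symm := ⟨fun _ _ h => ⟨h.1.symm, h.2.symm⟩⟩
  loopless := ⟨fun _ h => h.1 rfl⟩

section

variable {V ι W : Type*}

theorem lab_const (lab : V → ι) (H : SimpleGraph W) (S : Finset W)
    (hS : (H.induce (S : Set W)).Connected) (f : W → V)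
    (hf : ∀ a ∈ S, ∀ b ∈ S, H.Adj a b → (labGraph lab).Adj (f a) (f b)) :
    ∀ a ∈ S, ∀ b ∈ S, lab (f a) = lab (f b) := by
  have key : ∀ (a b : (S : Set W)), (H.induce (S : Set W)).Walk a b → lab (f a) = lab (f b) := by
    intro a b p
    induction p with
    | nil => rfl
    | cons h p ih =>
      rename_i u v w
      have h1 : H.Adj u v := h
      exact (hf u u.2 v v.2 h1).2.trans ih
  intro a ha b hb
  obtain ⟨p⟩ := hS.preconnected ⟨a, ha⟩ ⟨b, hb⟩
  exact key _ _ p

theorem no_embed [Fintype V] [DecidableEq V] [DecidableEq ι] (lab : V → ι) (H : SimpleGraph W)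
    {q : ℕ} (hq : ∀ i, (univ.filter fun p : V => lab p = i).card ≤ q) (S : Finset W)
    (hS : (H.induce (S : Set W)).Connected) (hSq : q < S.card) (f : W → V)
    (hinj : Set.InjOn f S) :
    ¬ ∀ a ∈ S, ∀ b ∈ S, H.Adj a b → (labGraph lab).Adj (f a) (f b) := by
  intro hf
  have hne : S.Nonempty := Finset.card_pos.1 (by omega)
  obtain ⟨a, ha⟩ := hne
  have h1 := lab_const lab H S hS f hf
  have h2 : S.card ≤ (univ.filter fun p : V => lab p = lab (f a)).card := by
    refine Finset.card_le_card_of_injOn f ?_ hinj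
    intro b hb
    simp only [Finset.coe_filter, Finset.mem_univ, true_and, Set.mem_ofPred_eq]
    exact h1 b hb a ha
  exact absurd (h2.trans (hq _)) (by omega)

theorem exists_inj [DecidableEq V] [DecidableEq W] (D : Finset W) (F : Finset V)
    (h : D.card ≤ F.card) (d : V) :
    ∃ g : W → V, (∀ w ∈ D, g w ∈ F) ∧ Set.InjOn g D := by
  obtain ⟨e⟩ : Nonempty (D ↪ F) := Function.Embedding.nonempty_of_card_le (by simpa using h)
  refine ⟨fun w => if h : w ∈ D then (e ⟨w, h⟩ : V) else d, ?_, ?_⟩
  · intro w hw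
    simp only [hw, dif_pos]
    exact (e ⟨w, hw⟩).2
  · intro a ha b hb hab
    have ha' : a ∈ D := ha
    have hb' : b ∈ D := hb
    simp only [ha', hb', dif_pos] at hab
    exact congrArg Subtype.val (e.injective (Subtype.ext hab))

theorem exists_inj_point [DecidableEq V] [DecidableEq W] (D : Finset W) (F : Finset V)
    (h : D.card ≤ F.card) {x : W} (hx : x ∈ D) {u : V} (hu : u ∈ F) :
    ∃ g : W → V, (∀ w ∈ D, g w ∈ F) ∧ Set.InjOn g D ∧ g x = u := by
  obtain ⟨g, h1, h2⟩ := exists_inj D F h u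
  refine ⟨fun w => Equiv.swap (g x) u (g w), ?_, ?_, ?_⟩
  · intro w hw
    show Equiv.swap (g x) u (g w) ∈ F
    by_cases h3 : g w = g x
    · rw [h3, Equiv.swap_apply_left]; exact hu
    · by_cases h4 : g w = u
      · rw [h4, Equiv.swap_apply_right]; exact h1 x hx
      · rw [Equiv.swap_apply_of_ne_of_ne h3 h4]; exact h1 w hw
  · intro a ha b hb hab
    exact h2 ha hb ((Equiv.swap (g x) u).injective hab)
  · exact Equiv.swap_apply_left _ _

/-- edges of `H` inside a set of vertices -/
def restr (H : SimpleGraph W) (R : Set W) : SimpleGraph W where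
  Adj a b := a ∈ R ∧ b ∈ R ∧ H.Adj a b
  symm := ⟨fun _ _ h => ⟨h.2.1, h.1, h.2.2.symm⟩⟩
  loopless := ⟨fun _ h => h.2.2.ne rfl⟩

theorem restr_supp (H : SimpleGraph W) (R : Set W) (C : (restr H R).ConnectedComponent) {a : W}
    (ha : a ∈ R) (hC : (restr H R).connectedComponentMk a = C) : C.supp ⊆ R := by
  intro b hb
  rw [SimpleGraph.ConnectedComponent.mem_supp_iff, ← hC, SimpleGraph.ConnectedComponent.eq] at hb
  obtain ⟨p⟩ := hb
  cases p with
  | nil => exact ha
  | cons h _ => exact h.1

theorem clique_embed [Fintype V] [DecidableEq V] [DecidableEq ι] [Fintype W] [DecidableEq W]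
    (lab : V → ι) (H : SimpleGraph W) (X D₁ D₂ : Finset W) (x y : W) (hx : x ∈ D₁) (hy : y ∈ D₂)
    (h12 : Disjoint D₁ D₂)
    (hc1 : ∀ u ∈ D₁, ∀ v, v ∉ X → H.Adj u v → v ∈ D₁ ∨ (u = x ∧ v = y))
    (hc2 : ∀ u ∈ D₂, ∀ v, v ∉ X → H.Adj u v → v ∈ D₂ ∨ (u = y ∧ v = x)) {q : ℕ}
    (hrest : ∀ S : Finset W, Disjoint S X → Disjoint S D₁ → Disjoint S D₂ →
      (H.induce (S : Set W)).Connected → S.card ≤ q)
    (u v : V) (huv : lab u ≠ lab v)
    (hu : D₁.card ≤ (univ.filter fun p : V => lab p = lab u).card)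
    (hv : D₂.card ≤ (univ.filter fun p : V => lab p = lab v).card)
    (J : Finset ι) (hJu : lab u ∉ J) (hJv : lab v ∉ J) (hJ : Fintype.card W ≤ J.card)
    (hJq : ∀ i ∈ J, q ≤ (univ.filter fun p : V => lab p = i).card) :
    ∃ f : W → V, Set.InjOn f ((X : Set W)ᶜ) ∧ ∀ a b, a ∉ X → b ∉ X → H.Adj a b →
      (labGraph lab ⊔ SimpleGraph.edge u v).Adj (f a) (f b) := by
  classical
  obtain ⟨g1, g1m, g1i, g1x⟩ := exists_inj_point D₁ _ hu hx (u := u) (by simp)
  obtain ⟨g2, g2m, g2i, g2y⟩ := exists_inj_point D₂ _ hv hy (u := v) (by simp)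
  let R : Set W := {w | w ∉ X ∧ w ∉ D₁ ∧ w ∉ D₂}
  let H' := restr H R
  have : Fintype H'.ConnectedComponent := Fintype.ofFinite _
  have hcc : Fintype.card H'.ConnectedComponent ≤ Fintype.card J := by
    rw [Fintype.card_coe]
    refine le_trans ?_ hJ
    exact Fintype.card_le_of_surjective (fun w => H'.connectedComponentMk w)
      (fun C => by
        induction C using SimpleGraph.ConnectedComponent.ind with
        | _ w => exact ⟨w, rfl⟩)
  obtain ⟨κ⟩ := Function.Embedding.nonempty_of_card_le hcc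
  have hg : ∀ C : H'.ConnectedComponent, ∃ g : W → V,
      (∀ w ∈ C.supp, w ∈ R → lab (g w) = (κ C : ι)) ∧ Set.InjOn g (C.supp ∩ R) := by
    intro C
    by_cases hCR : ∃ a ∈ R, H'.connectedComponentMk a = C
    · obtain ⟨a, haR, haC⟩ := hCR
      have hsub := restr_supp H R C haR haC
      let S : Finset W := C.supp.toFinset
      have hS : (S : Set W) = C.supp := by simp [S]
      have hconn : (H.induce (S : Set W)).Connected := by
        rw [hS]
        have h1 : (H'.induce C.supp).Connected := C.maximal_connected_induce_supp.prop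
        refine SimpleGraph.Connected.mono ?_ h1
        intro a b hab
        exact hab.2.2
      have hSq : S.card ≤ q := by
        refine hrest S ?_ ?_ ?_ hconn
        · rw [Finset.disjoint_left]
          intro w hw
          exact (hsub (by rw [← hS]; exact hw)).1
        · rw [Finset.disjoint_left]
          intro w hw
          exact (hsub (by rw [← hS]; exact hw)).2.1
        · rw [Finset.disjoint_left]
          intro w hw
          exact (hsub (by rw [← hS]; exact hw)).2.2
      obtain ⟨g, hg1, hg2⟩ := exists_inj S (univ.filter fun p : V => lab p = (κ C : ι))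
        (hSq.trans (hJq _ (κ C).2)) u
      refine ⟨g, ?_, ?_⟩
      · intro w hw _
        have := hg1 w (by rw [← Finset.mem_coe, hS]; exact hw)
        simpa using this
      · refine hg2.mono ?_
        rw [hS]
        exact Set.inter_subset_left
    · refine ⟨fun _ => u, ?_, ?_⟩
      · intro w hw hwR
        exact absurd ⟨w, hwR, hw⟩ hCR
      · rintro w ⟨hw, hwR⟩
        exact absurd ⟨w, hwR, hw⟩ hCR
  choose gC gCm gCi using hg
  let f : W → V := fun w => if w ∈ D₁ then g1 w else if w ∈ D₂ then g2 w else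
    gC (H'.connectedComponentMk w) w
  have f1 : ∀ w ∈ D₁, f w = g1 w := fun w hw => by simp [f, hw]
  have f2 : ∀ w ∈ D₂, f w = g2 w := fun w hw => by
    have : w ∉ D₁ := fun h => (Finset.disjoint_left.1 h12 h) hw
    simp [f, hw, this]
  have f3 : ∀ w ∈ R, f w = gC (H'.connectedComponentMk w) w := fun w hw => by
    simp [f, hw.2.1, hw.2.2]
  have l1 : ∀ w ∈ D₁, lab (f w) = lab u := fun w hw => by
    rw [f1 w hw]; simpa using g1m w hw
  have l2 : ∀ w ∈ D₂, lab (f w) = lab v := fun w hw => by
    rw [f2 w hw]; simpa using g2m w hw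
  have l3 : ∀ w ∈ R, lab (f w) = (κ (H'.connectedComponentMk w) : ι) := fun w hw => by
    rw [f3 w hw]; exact gCm _ w rfl hw
  have l3u : ∀ w ∈ R, lab (f w) ≠ lab u := fun w hw h => by
    rw [l3 w hw] at h
    exact hJu (h ▸ (κ (H'.connectedComponentMk w)).2)
  have l3v : ∀ w ∈ R, lab (f w) ≠ lab v := fun w hw h => by
    rw [l3 w hw] at h
    exact hJv (h ▸ (κ (H'.connectedComponentMk w)).2)
  have cases3 : ∀ w, w ∉ X → w ∈ D₁ ∨ w ∈ D₂ ∨ w ∈ R := by
    intro w hw
    by_cases h1 : w ∈ D₁
    · exact Or.inl h1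
    · by_cases h2 : w ∈ D₂
      · exact Or.inr (Or.inl h2)
      · exact Or.inr (Or.inr ⟨hw, h1, h2⟩)
  refine ⟨f, ?_, ?_⟩
  · intro a ha b hb hab
    have hlab : lab (f a) = lab (f b) := by rw [hab]
    rcases cases3 a (by simpa using ha) with h1 | h1 | h1 <;>
    rcases cases3 b (by simpa using hb) with h2 | h2 | h2
    · rw [f1 a h1, f1 b h2] at hab
      exact g1i h1 h2 hab
    · rw [l1 a h1, l2 b h2] at hlab
      exact absurd hlab huv
    · rw [l1 a h1] at hlab
      exact absurd hlab.symm (l3u b h2)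
    · rw [l2 a h1, l1 b h2] at hlab
      exact absurd hlab.symm huv
    · rw [f2 a h1, f2 b h2] at hab
      exact g2i h1 h2 hab
    · rw [l2 a h1] at hlab
      exact absurd hlab.symm (l3v b h2)
    · rw [l1 b h2] at hlab
      exact absurd hlab (l3u a h1)
    · rw [l2 b h2] at hlab
      exact absurd hlab (l3v a h1)
    · rw [l3 a h1, l3 b h2] at hlab
      have h4 : H'.connectedComponentMk a = H'.connectedComponentMk b :=
        κ.injective (Subtype.ext hlab)
      rw [f3 a h1, f3 b h2, ← h4] at hab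
      exact gCi _ ⟨rfl, h1⟩ ⟨h4.symm, h2⟩ hab
  · intro a b ha hb hab
    have hinjne : ∀ {s : Set W}, Set.InjOn f s → a ∈ s → b ∈ s → f a ≠ f b :=
      fun hs h1 h2 h => hab.ne (hs h1 h2 h)
    rw [SimpleGraph.sup_adj]
    rcases cases3 a ha with h1 | h1 | h1
    · rcases hc1 a h1 b hb hab with h2 | ⟨rfl, rfl⟩
      · left
        refine ⟨?_, by rw [l1 a h1, l1 b h2]⟩
        rw [f1 a h1, f1 b h2]
        exact fun h => hab.ne (g1i h1 h2 h)
      · right
        rw [f1 a h1, f2 b hy, g1x, g2y, SimpleGraph.edge_adj]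
        exact ⟨Or.inl ⟨rfl, rfl⟩, fun h => huv (by rw [h])⟩
    · rcases hc2 a h1 b hb hab with h2 | ⟨rfl, rfl⟩
      · left
        refine ⟨?_, by rw [l2 a h1, l2 b h2]⟩
        rw [f2 a h1, f2 b h2]
        exact fun h => hab.ne (g2i h1 h2 h)
      · right
        rw [f2 a h1, f1 b hx, g1x, g2y, SimpleGraph.edge_adj]
        exact ⟨Or.inr ⟨rfl, rfl⟩, fun h => huv (by rw [h])⟩
    · have h2 : b ∈ R := by
        rcases cases3 b hb with h2 | h2 | h2
        · rcases hc1 b h2 a ha hab.symm with h3 | ⟨_, h3⟩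
          · exact absurd h3 h1.2.1
          · rw [h3] at h1; exact absurd hy h1.2.2
        · rcases hc2 b h2 a ha hab.symm with h3 | ⟨_, h3⟩
          · exact absurd h3 h1.2.2
          · rw [h3] at h1; exact absurd hx h1.2.1
        · exact h2
      left
      have h4 : H'.connectedComponentMk a = H'.connectedComponentMk b :=
        SimpleGraph.ConnectedComponent.sound (SimpleGraph.Adj.reachable ⟨h1, h2, hab⟩)
      refine ⟨?_, by rw [l3 a h1, l3 b h2, h4]⟩
      rw [f3 a h1, f3 b h2, ← h4]
      exact fun h => hab.ne (gCi _ ⟨rfl, h1⟩ ⟨h4.symm, h2⟩ h)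

theorem labGraph_twinFree [Fintype V] [DecidableEq V] [DecidableEq ι] (lab : V → ι)
    (h : ∀ u v : V, lab u ≠ lab v → 2 ≤ (univ.filter fun p : V => lab p = lab u).card ∨
      2 ≤ (univ.filter fun p : V => lab p = lab v).card) : TwinFree (labGraph lab) := by
  have key : ∀ u v : V, lab u ≠ lab v → 2 ≤ (univ.filter fun p : V => lab p = lab u).card →
      (labGraph lab).neighborSet u ≠ (labGraph lab).neighborSet v := by
    intro u v huv hc heq
    obtain ⟨w, hw, hwu⟩ := Finset.exists_mem_ne (lt_of_lt_of_le one_lt_two hc) u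
    have hw' : lab w = lab u := by simpa using hw
    have h1 : w ∈ (labGraph lab).neighborSet u := ⟨hwu.symm, hw'.symm⟩
    rw [heq] at h1
    exact huv (hw'.symm.trans h1.2.symm)
  intro u v huv heq
  by_cases hl : lab u = lab v
  · have h1 : v ∈ (labGraph lab).neighborSet u := ⟨huv, hl⟩
    rw [heq] at h1
    exact h1.1 rfl
  · rcases h u v hl with h1 | h1
    · exact key u v hl h1 heq
    · exact key v u (fun h => hl h.symm) h1 heq.symm

theorem labGraph_edges [Fintype V] [DecidableEq V] [DecidableEq ι] (lab : V → ι) {q : ℕ}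
    (hq : ∀ i, (univ.filter fun p : V => lab p = i).card ≤ q) :
    (labGraph lab).edgeSet.ncard ≤ q * Fintype.card V := by
  have h1 : (labGraph lab).edgeSet ⊆ (fun p : V × V => s(p.1, p.2)) ''
      ((univ.filter fun p : V × V => lab p.1 = lab p.2 : Finset (V × V)) : Set (V × V)) := by
    intro s
    induction s using Sym2.ind with
    | _ u v =>
      intro h
      exact ⟨(u, v), by simpa using h.2, rfl⟩
  calc (labGraph lab).edgeSet.ncard ≤ _ := Set.ncard_le_ncard h1 (Set.toFinite _)
    _ ≤ _ := Set.ncard_image_le (Set.toFinite _)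
    _ = (univ.filter fun p : V × V => lab p.1 = lab p.2 : Finset (V × V)).card :=
        Set.ncard_coe_finset _
    _ = ∑ v : V, (univ.filter fun p : V => lab p = lab v).card := by
        rw [Finset.card_filter, ← Finset.univ_product_univ, Finset.sum_product_right]
        refine Finset.sum_congr rfl fun v _ => ?_
        rw [Finset.card_filter]
    _ ≤ ∑ _v : V, q := Finset.sum_le_sum fun v _ => hq _
    _ = q * Fintype.card V := by simp [mul_comm]

end

end Pool.Agent.TwinSat
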