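import Mathlib
import Pool.Agent.TwinSat.Cliques

set_option autoImplicit false

namespace Pool.Agent.TwinSat

open SimpleGraph Finset

/-- sizes of the cliques -/
def szs (q r₁ r₂ t : ℕ) (i : Fin (t + 2)) : ℕ :=
  if i = 0 then r₁ else if i = 1 then r₂ else q

theorem szs_sum (q r₁ r₂ t : ℕ) : ∑ i, szs q r₁ r₂ t i = r₁ + r₂ + t * q := by
  rw [Fin.sum_univ_succ, Fin.sum_univ_succ]
  have h1 : ∀ i : Fin t, szs q r₁ r₂ t i.succ.succ = q := by
    intro i
    have h2 : (i.succ.succ : Fin (t + 2)) ≠ 0 := Fin.succ_ne_zero _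
    have h3 : (i.succ.succ : Fin (t + 2)) ≠ 1 := by
      intro h
      have := congrArg Fin.val h
      simp at this
    simp [szs, h2, h3]
  simp only [h1]
  have h4 : szs q r₁ r₂ t 0 = r₁ := by simp [szs]
  have h5 : szs q r₁ r₂ t (Fin.succ 0) = r₂ := by
    simp [szs]
  rw [h4, h5]
  simp
  ring

theorem fiber_card {k : ℕ} (s : Fin k → ℕ) (i : Fin k) :
    (univ.filter fun p : (Σ i : Fin k, Fin (s i)) => p.1 = i).card = s i := by
  have : (univ.filter fun p : (Σ i : Fin k, Fin (s i)) => p.1 = i) =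
      (univ : Finset (Fin (s i))).map ⟨fun a => ⟨i, a⟩, fun a b h => by simpa using h⟩ := by
    ext ⟨j, a⟩
    simp only [mem_filter, mem_univ, true_and, mem_map, Function.Embedding.coeFn_mk]
    constructor
    · rintro rfl
      exact ⟨a, rfl⟩
    · rintro ⟨b, hb⟩
      exact (congrArg Sigma.fst hb).symm
  rw [this, card_map]
  simp

/-- The main construction for `BridgeCond`, in the case `|D₂| ≤ |D₁|`. -/
theorem bridge_aux {W : Type*} [Fintype W] (H : SimpleGraph W) (X D₁ D₂ : Finset W) (x y : W)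
    (hx : x ∈ D₁) (hy : y ∈ D₂) (hxy : H.Adj x y) (h12 : Disjoint D₁ D₂) (hX1 : Disjoint X D₁)
    (hX2 : Disjoint X D₂) (h3 : 3 ≤ D₁.card + D₂.card)
    (hc1 : ∀ u ∈ D₁, ∀ v, v ∉ X → H.Adj u v → v ∈ D₁ ∨ (u = x ∧ v = y))
    (hc2 : ∀ u ∈ D₂, ∀ v, v ∉ X → H.Adj u v → v ∈ D₂ ∨ (u = y ∧ v = x))
    (hrest : ∀ S : Finset W, Disjoint S X → Disjoint S D₁ → Disjoint S D₂ →
      (H.induce (S : Set W)).Connected → S.card < D₁.card + D₂.card)
    (hopt : ∀ Y : Finset W, Y.card = X.card → ∃ S : Finset W, Disjoint S Y ∧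
      D₁.card + D₂.card ≤ S.card ∧ (H.induce (S : Set W)).Connected)
    (hle : D₂.card ≤ D₁.card) : LinearTsat H := by
  classical
  obtain ⟨q, hq⟩ : ∃ q, D₁.card + D₂.card = q + 1 := ⟨D₁.card + D₂.card - 1, by omega⟩
  have hp1 : 0 < D₁.card := Finset.card_pos.2 ⟨x, hx⟩
  have hp2 : 0 < D₂.card := Finset.card_pos.2 ⟨y, hy⟩
  have hXW : X.card ≤ Fintype.card W := Finset.card_le_univ X
  refine ⟨X.card + q, X.card + (Fintype.card W + 6) * q + 2 * q + 2, ?_⟩
  intro n hn
  -- parameters
  obtain ⟨N, hN⟩ : ∃ N, n = X.card + N := ⟨n - X.card, by omega⟩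
  have hNq : (Fintype.card W + 6) * q + 2 * q + 2 ≤ N := by omega
  let t := (N - q - 1) / q
  let r := (N - q - 1) % q + 1
  have htr : t * q + (q + r) = N := by
    have h4 := Nat.div_add_mod (N - q - 1) q
    have h5 : t * q = q * ((N - q - 1) / q) := by rw [mul_comm]
    have h6 : r = (N - q - 1) % q + 1 := rfl
    have h7 : q + 1 ≤ N := by nlinarith
    omega
  have hr1 : 1 ≤ r := by omega
  have hrq : r ≤ q := by
    have : (N - q - 1) % q < q := Nat.mod_lt _ (by omega)
    omega
  have ht : Fintype.card W + 4 ≤ t := by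
    rw [Nat.le_div_iff_mul_le (by omega)]
    have : (Fintype.card W + 4) * q + q + 1 ≤ N := by nlinarith
    omega
  let r₁ := max D₁.card r
  let r₂ := q + r - r₁
  have hr₁q : r₁ ≤ q := max_le (by omega) hrq
  have hr₁ : D₁.card ≤ r₁ := le_max_left _ _
  have hr₂ : D₂.card ≤ r₂ ∧ r₂ ≤ q ∧ r₁ + r₂ = q + r := by
    have h4 : r₁ = D₁.card ∨ r₁ = r := by
      rcases le_total D₁.card r with h | h
      · right; exact max_eq_right h
      · left; exact max_eq_left h
    have h5 : r₂ = q + r - r₁ := rfl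
    have h6 : r ≤ r₁ := le_max_right _ _
    rcases h4 with h4 | h4 <;> omega
  obtain ⟨hr₂, hr₂q, hr12⟩ := hr₂
  let s := szs q r₁ r₂ t
  have hs0 : s 0 = r₁ := by simp [s, szs]
  have hs1 : s 1 = r₂ := by simp [s, szs]
  have hs2 : ∀ i, i ≠ 0 → i ≠ 1 → s i = q := fun i h0 h1 => by simp [s, szs, h0, h1]
  have hsq : ∀ i, s i ≤ q := by
    intro i
    by_cases h0 : i = 0
    · rw [h0, hs0]; exact hr₁q
    · by_cases h1 : i = 1
      · rw [h1, hs1]; exact hr₂q
      · rw [hs2 i h0 h1]
  have hsp2 : ∀ i, D₂.card ≤ s i := by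
    intro i
    by_cases h0 : i = 0
    · rw [h0, hs0]; omega
    · by_cases h1 : i = 1
      · rw [h1, hs1]; exact hr₂
      · rw [hs2 i h0 h1]; omega
  have hsp1 : ∀ i, i ≠ 1 → D₁.card ≤ s i := by
    intro i h1
    by_cases h0 : i = 0
    · rw [h0, hs0]; omega
    · rw [hs2 i h0 h1]; omega
  let V := Σ i : Fin (t + 2), Fin (s i)
  let lab : V → Fin (t + 2) := Sigma.fst
  have hfib : ∀ i, (univ.filter fun p : V => lab p = i).card = s i := fun i => fiber_card s i
  have hcardV : Fintype.card V = N := by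
    rw [Fintype.card_sigma]
    simp only [Fintype.card_fin]
    show ∑ i, szs q r₁ r₂ t i = N
    rw [szs_sum]
    omega
  have hV : Nonempty V := Fintype.card_pos_iff.1 (by rw [hcardV]; omega)
  have hsat : Saturated H (hubJoin X.card (labGraph lab)) := by
    apply hubJoin_saturated H (labGraph lab) hXW
    · intro Y hY f hf hadj
      obtain ⟨S, hSY, hSc, hSconn⟩ := hopt Y hY
      have hSY' : ∀ a ∈ S, a ∉ Y := fun a ha => Finset.disjoint_left.1 hSY ha
      refine no_embed lab H (q := q) (fun i => by rw [hfib]; exact hsq i) S hSconn (by omega) f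
        (hf.mono fun a ha => hSY' a ha) ?_
      intro a ha b hb hab
      exact hadj a b (hSY' a ha) (hSY' b hb) hab
    · intro u v huv hnadj
      refine ⟨X, rfl, ?_⟩
      have hl : lab u ≠ lab v := fun h => hnadj ⟨huv, h⟩
      have hrest' : ∀ S : Finset W, Disjoint S X → Disjoint S D₁ → Disjoint S D₂ →
          (H.induce (S : Set W)).Connected → S.card ≤ q := by
        intro S h4 h5 h6 h7
        have := hrest S h4 h5 h6 h7
        omega
      let J : Finset (Fin (t + 2)) := univ \ {0, 1, lab u, lab v}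
      have hJu : lab u ∉ J := by simp [J]
      have hJv : lab v ∉ J := by simp [J]
      have hJc : Fintype.card W ≤ J.card := by
        have h4 : (({0, 1, lab u, lab v} : Finset (Fin (t + 2)))).card ≤ 4 :=
          Finset.card_le_four
        have h5 := Finset.le_card_sdiff ({0, 1, lab u, lab v} : Finset (Fin (t + 2)))
          (univ : Finset (Fin (t + 2)))
        have h6 : (univ : Finset (Fin (t + 2))).card = t + 2 := by simp
        have h7 : J.card = (univ \ {0, 1, lab u, lab v} : Finset (Fin (t + 2))).card := rfl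
        omega
      have hJq : ∀ i ∈ J, q ≤ (univ.filter fun p : V => lab p = i).card := by
        intro i hi
        have h4 : i ≠ 0 ∧ i ≠ 1 := by
          constructor
          · rintro rfl; simp [J] at hi
          · rintro rfl; simp [J] at hi
        rw [hfib, hs2 i h4.1 h4.2]
      by_cases hu1 : lab u = 1
      · have hv1 : lab v ≠ 1 := fun h => hl (hu1.trans h.symm)
        have h8 := clique_embed lab H X D₁ D₂ x y hx hy h12 hc1 hc2 hrest' v u hl.symm
          (by rw [hfib]; exact hsp1 _ hv1) (by rw [hfib]; exact hsp2 _) J hJv hJu hJc hJq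
        rw [SimpleGraph.edge_comm] at h8
        exact h8
      · exact clique_embed lab H X D₁ D₂ x y hx hy h12 hc1 hc2 hrest' u v hl
          (by rw [hfib]; exact hsp1 _ hu1) (by rw [hfib]; exact hsp2 _) J hJu hJv hJc hJq
  have htw : TwinFree (hubJoin X.card (labGraph lab)) := by
    apply hubJoin_twinFree
    apply labGraph_twinFree
    intro u v huv
    rw [hfib, hfib]
    by_contra hcon
    push Not at hcon
    obtain ⟨h4, h5⟩ := hcon
    have hsz : ∀ i, s i < 2 → i = 0 ∨ i = 1 := by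
      intro i hi
      by_contra h
      push Not at h
      rw [hs2 i h.1 h.2] at hi
      omega
    have h6 : s 0 + s 1 < 4 → s 0 + s 1 = q + r := fun _ => by rw [hs0, hs1, hr12]
    rcases hsz _ h4 with h7 | h7 <;> rcases hsz _ h5 with h8 | h8
    · exact huv (h7.trans h8.symm)
    · rw [h7] at h4; rw [h8] at h5; omega
    · rw [h7] at h4; rw [h8] at h5; omega
    · exact huv (h7.trans h8.symm)
  have hedge : (labGraph lab).edgeSet.ncard ≤ q * Fintype.card V :=
    labGraph_edges lab (fun i => by rw [hfib]; exact hsq i)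
  have hcard : Fintype.card (Fin X.card ⊕ V) = n := by
    rw [Fintype.card_sum, hcardV, Fintype.card_fin, hN]
  obtain ⟨G, h4, h5, h6⟩ := transport H _ hcard hsat htw (hubJoin_edges X.card _ hedge)
  refine ⟨G, h4, h5, h6.trans ?_⟩
  rw [hcardV, ← hN]
  calc X.card * n + q * N ≤ X.card * n + q * n :=
        Nat.add_le_add_left (Nat.mul_le_mul_left _ (by omega)) _
    _ = (X.card + q) * n := by ring

theorem bridge_linear {W : Type*} [Fintype W] (H : SimpleGraph W) (h : BridgeCond H) :
    LinearTsat H := by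
  obtain ⟨X, D₁, D₂, x, y, hx, hy, hxy, h12, hX1, hX2, h3, hc1, hc2, hrest, hopt⟩ := h
  rcases le_total D₂.card D₁.card with hle | hle
  · exact bridge_aux H X D₁ D₂ x y hx hy hxy h12 hX1 hX2 h3 hc1 hc2 hrest hopt hle
  · refine bridge_aux H X D₂ D₁ y x hy hx hxy.symm h12.symm hX2 hX1 (by omega) hc2 hc1 ?_ ?_ hle
    · intro S h4 h5 h6 h7
      have := hrest S h4 h6 h5 h7
      omega
    · intro Y hY
      obtain ⟨S, h4, h5, h6⟩ := hopt Y hY
      exact ⟨S, h4, by omega, h6⟩

end Pool.Agent.TwinSat
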