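import Mathlib
import Pool.Agent.TwinSat.Basic

set_option autoImplicit false

namespace Pool.Agent.TwinSat

open SimpleGraph Finset

/-- Embedding a triangle plus a matching. -/
theorem tri_embed {V W : Type*} [Fintype W] [DecidableEq V] [DecidableEq W]
    (R : SimpleGraph V) {q : ℕ} (M : Fin q × Bool → V) (hM : Function.Injective M)
    (hMa : ∀ i, R.Adj (M (i, true)) (M (i, false))) (hq : Fintype.card W + 3 ≤ q)
    (H : SimpleGraph W) (X : Finset W) (x y z : W)
    (hxX : x ∉ X) (hyX : y ∉ X) (hzX : z ∉ X) (hxy : H.Adj x y) (hyz : H.Adj y z)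
    (hxz : H.Adj x z)
    (h1 : ∀ u, u ∉ X → u ≠ x → u ≠ y → u ≠ z → ¬ H.Adj u x ∧ ¬ H.Adj u y ∧ ¬ H.Adj u z)
    (h2 : ∀ u v w, u ∉ X → v ∉ X → w ∉ X → u ≠ x → u ≠ y → u ≠ z → H.Adj u v → H.Adj u w →
      v = w)
    (a b c : V) (hab : a ≠ b) (hac : R.Adj a c) (hbc : R.Adj b c) :
    ∃ f : W → V, Set.InjOn f ((X : Set W)ᶜ) ∧ ∀ s t, s ∉ X → t ∉ X → H.Adj s t →
      (R ⊔ SimpleGraph.edge a b).Adj (f s) (f t) := by
  classical
  -- good edges of the matching
  let Good : Finset (Fin q) := univ.filter fun i => ∀ β, M (i, β) ≠ a ∧ M (i, β) ≠ b ∧ M (i, β) ≠ c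
  have hbad : (univ \ Good).card ≤ 3 := by
    have hsub : ∀ i ∈ (univ \ Good : Finset (Fin q)), ∃ β, M (i, β) ∈ ({a, b, c} : Finset V) := by
      intro i hi
      have h3 : i ∉ Good := by simpa using hi
      have h4 : ¬ ∀ β, M (i, β) ≠ a ∧ M (i, β) ≠ b ∧ M (i, β) ≠ c := by
        intro h; exact h3 (by simp [Good, h])
      push Not at h4
      obtain ⟨β, hβ⟩ := h4
      refine ⟨β, ?_⟩
      by_cases h5 : M (i, β) = a
      · simp [h5]
      · by_cases h6 : M (i, β) = b
        · simp [h6]
        · simp [hβ h5 h6]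
    choose! β hβ using hsub
    calc (univ \ Good).card ≤ ({a, b, c} : Finset V).card := by
          refine Finset.card_le_card_of_injOn (fun i => M (i, β i)) hβ ?_
          intro i _ j _ hij
          exact congrArg Prod.fst (hM hij)
      _ ≤ 3 := Finset.card_le_three
  have hgood : Fintype.card W ≤ Good.card := by
    have h3 := Finset.card_sdiff_add_card_eq_card (Finset.subset_univ Good)
    have h4 : (univ : Finset (Fin q)).card = q := by simp
    omega
  obtain ⟨gd⟩ : Nonempty (Fin (Fintype.card W) ↪ Good) :=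
    Function.Embedding.nonempty_of_card_le (by simpa using hgood)
  let idx : W ≃ Fin (Fintype.card W) := Fintype.equivFin W
  -- partners
  let π : W → W := fun w => if h : ∃ w', w' ∉ X ∧ H.Adj w w' then h.choose else w
  let R0 : Set W := {w | w ∉ X ∧ w ≠ x ∧ w ≠ y ∧ w ≠ z}
  have nb : ∀ w ∈ R0, ∀ w', w' ∉ X → H.Adj w w' → w' ∈ R0 := by
    intro w hw w' hw' hadj
    have h3 := h1 w hw.1 hw.2.1 hw.2.2.1 hw.2.2.2
    refine ⟨hw', ?_, ?_, ?_⟩
    · rintro rfl; exact h3.1 hadj
    · rintro rfl; exact h3.2.1 hadj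
    · rintro rfl; exact h3.2.2 hadj
  have πeq : ∀ w ∈ R0, ∀ w', w' ∉ X → H.Adj w w' → π w = w' := by
    intro w hw w' hw' hadj
    have h : ∃ w', w' ∉ X ∧ H.Adj w w' := ⟨w', hw', hadj⟩
    have h3 : π w = h.choose := by simp only [π]; rw [dif_pos h]
    rw [h3]
    exact h2 w _ _ hw.1 h.choose_spec.1 hw' hw.2.1 hw.2.2.1 hw.2.2.2 h.choose_spec.2 hadj
  have πcases : ∀ w ∈ R0, π w = w ∨ (π w ∈ R0 ∧ H.Adj w (π w) ∧ π (π w) = w) := by
    intro w hw
    by_cases h : ∃ w', w' ∉ X ∧ H.Adj w w'
    · right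
      obtain ⟨w', hw', hadj⟩ := h
      have h3 := πeq w hw w' hw' hadj
      rw [h3]
      have h4 := nb w hw w' hw' hadj
      exact ⟨h4, hadj, πeq w' h4 w hw.1 hadj.symm⟩
    · left
      simp only [π]; rw [dif_neg h]
  let ix : W → Fin (Fintype.card W) := fun w => min (idx w) (idx (π w))
  let bt : W → Bool := fun w => decide (idx w ≤ idx (π w))
  let m : W → V := fun w => M ((gd (ix w) : Fin q), bt w)
  have minj : ∀ s ∈ R0, ∀ t ∈ R0, m s = m t → s = t := by
    intro s hs t ht hst
    have h3 := hM hst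
    have h4 : ix s = ix t := by
      have := congrArg Prod.fst h3
      exact gd.injective (Subtype.ext this)
    have h5 : bt s = bt t := congrArg Prod.snd h3
    by_cases h6 : idx s ≤ idx (π s)
    · have h7 : bt s = true := by simp [bt, h6]
      have h8 : idx t ≤ idx (π t) := by
        rw [h5] at h7; simpa [bt] using h7
      have h9 : ix s = idx s := min_eq_left h6
      have h10 : ix t = idx t := min_eq_left h8
      rw [h9, h10] at h4
      exact idx.injective h4
    · have h7 : bt s = false := by simp [bt, not_le.1 h6]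
      have h8 : ¬ idx t ≤ idx (π t) := by
        rw [h5] at h7; simpa [bt] using h7
      have h9 : ix s = idx (π s) := min_eq_right (not_le.1 h6).le
      have h10 : ix t = idx (π t) := min_eq_right (not_le.1 h8).le
      rw [h9, h10] at h4
      have h11 := idx.injective h4
      have h12 : π s ≠ s := fun h => h6 (by rw [h])
      have h13 : π t ≠ t := fun h => h8 (by rw [h])
      rcases πcases s hs with h14 | h14
      · exact absurd h14 h12
      · rcases πcases t ht with h15 | h15
        · exact absurd h15 h13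
        · rw [← h14.2.2, ← h15.2.2, h11]
  have madj : ∀ s ∈ R0, ∀ t, t ∉ X → H.Adj s t → R.Adj (m s) (m t) := by
    intro s hs t ht hst
    have htR := nb s hs t ht hst
    have h3 : π s = t := πeq s hs t ht hst
    have h4 : π t = s := πeq t htR s hs.1 hst.symm
    have h5 : ix s = ix t := by
      show min (idx s) (idx (π s)) = min (idx t) (idx (π t))
      rw [h3, h4, min_comm]
    have hne : idx s ≠ idx t := fun h => hst.ne (idx.injective h)
    show R.Adj (M ((gd (ix s) : Fin q), bt s)) (M ((gd (ix t) : Fin q), bt t))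
    rw [h5]
    rcases lt_or_gt_of_ne hne with h6 | h6
    · have h7 : bt s = true := by simp [bt, h3, h6.le]
      have h8 : bt t = false := by simp [bt, h4, h6]
      rw [h7, h8]
      exact hMa _
    · have h7 : bt s = false := by simp [bt, h3, h6]
      have h8 : bt t = true := by simp [bt, h4, h6.le]
      rw [h7, h8]
      exact (hMa _).symm
  have mne : ∀ s, m s ≠ a ∧ m s ≠ b ∧ m s ≠ c := by
    intro s
    have h3 : (gd (ix s) : Fin q) ∈ Good := (gd (ix s)).2
    have h4 : ∀ β, M ((gd (ix s) : Fin q), β) ≠ a ∧ M ((gd (ix s) : Fin q), β) ≠ b ∧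
        M ((gd (ix s) : Fin q), β) ≠ c := by simpa [Good] using h3
    exact h4 _
  let f : W → V := fun w => if w = x then a else if w = y then b else if w = z then c else m w
  have hyx : y ≠ x := hxy.ne.symm
  have hzx : z ≠ x := hxz.ne.symm
  have hzy : z ≠ y := hyz.ne.symm
  have fx : f x = a := by simp [f]
  have fy : f y = b := by simp [f, hyx]
  have fz : f z = c := by simp [f, hzx, hzy]
  have fm : ∀ w ∈ R0, f w = m w := fun w hw => by simp [f, hw.2.1, hw.2.2.1, hw.2.2.2]
  have cases4 : ∀ w, w ∉ X → w = x ∨ w = y ∨ w = z ∨ w ∈ R0 := by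
    intro w hw
    by_cases h3 : w = x
    · exact Or.inl h3
    · by_cases h4 : w = y
      · exact Or.inr (Or.inl h4)
      · by_cases h5 : w = z
        · exact Or.inr (Or.inr (Or.inl h5))
        · exact Or.inr (Or.inr (Or.inr ⟨hw, h3, h4, h5⟩))
  refine ⟨f, ?_, ?_⟩
  · intro s hs t ht hst
    rcases cases4 s (by simpa using hs) with rfl | rfl | rfl | h3 <;>
    rcases cases4 t (by simpa using ht) with rfl | rfl | rfl | h4
    · rfl
    · rw [fx, fy] at hst; exact absurd hst hab
    · rw [fx, fz] at hst; exact absurd hst hac.ne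
    · rw [fx, fm t h4] at hst; exact absurd hst.symm (mne t).1
    · rw [fx, fy] at hst; exact absurd hst.symm hab
    · rfl
    · rw [fy, fz] at hst; exact absurd hst hbc.ne
    · rw [fy, fm t h4] at hst; exact absurd hst.symm (mne t).2.1
    · rw [fx, fz] at hst; exact absurd hst.symm hac.ne
    · rw [fy, fz] at hst; exact absurd hst.symm hbc.ne
    · rfl
    · rw [fz, fm t h4] at hst; exact absurd hst.symm (mne t).2.2
    · rw [fx, fm s h3] at hst; exact absurd hst (mne s).1
    · rw [fy, fm s h3] at hst; exact absurd hst (mne s).2.1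
    · rw [fz, fm s h3] at hst; exact absurd hst (mne s).2.2
    · rw [fm s h3, fm t h4] at hst; exact minj s h3 t h4 hst
  · intro s t hs ht hst
    rw [SimpleGraph.sup_adj]
    rcases cases4 s hs with rfl | rfl | rfl | h3 <;>
    rcases cases4 t ht with rfl | rfl | rfl | h4
    · exact absurd rfl hst.ne
    · right; rw [fx, fy, SimpleGraph.edge_adj]; exact ⟨Or.inl ⟨rfl, rfl⟩, hab⟩
    · left; rw [fx, fz]; exact hac
    · exact absurd hst.symm (h1 t h4.1 h4.2.1 h4.2.2.1 h4.2.2.2).1
    · right; rw [fx, fy, SimpleGraph.edge_adj]; exact ⟨Or.inr ⟨rfl, rfl⟩, hab.symm⟩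
    · exact absurd rfl hst.ne
    · left; rw [fy, fz]; exact hbc
    · exact absurd hst.symm (h1 t h4.1 h4.2.1 h4.2.2.1 h4.2.2.2).2.1
    · left; rw [fx, fz]; exact hac.symm
    · left; rw [fy, fz]; exact hbc.symm
    · exact absurd rfl hst.ne
    · exact absurd hst.symm (h1 t h4.1 h4.2.1 h4.2.2.1 h4.2.2.2).2.2
    · exact absurd hst (h1 s h3.1 h3.2.1 h3.2.2.1 h3.2.2.2).1
    · exact absurd hst (h1 s h3.1 h3.2.1 h3.2.2.1 h3.2.2.2).2.1
    · exact absurd hst (h1 s h3.1 h3.2.1 h3.2.2.1 h3.2.2.2).2.2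
    · left; rw [fm s h3, fm t h4]; exact madj s h3 t ht hst

end Pool.Agent.TwinSat
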