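import Mathlib
import Pool.Agent.TwinSat.TriEmbed

set_option autoImplicit false

namespace Pool.Agent.TwinSat

open SimpleGraph Finset

/-- vertices of the grid graph -/
inductive GV (T U P : Type) : Type
  | v | xS | xT | xU
  | t (a : T) | u (b : U) | w (p : P)

namespace GV

variable {T U P : Type}

/-- the edge relation, in one direction -/
def rel (α : P → T → Prop) (β : P → U → Prop) : GV T U P → GV T U P → Prop
  | v, xS => True
  | v, xT => True
  | v, xU => True
  | xS, w _ => True
  | xT, t _ => True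
  | xU, u _ => True
  | w p, t a => α p a
  | w p, u b => β p b
  | t a, u b => ∀ p, α p a → ¬ β p b
  | _, _ => False

/-- the grid graph -/
def grid (α : P → T → Prop) (β : P → U → Prop) : SimpleGraph (GV T U P) where
  Adj x y := rel α β x y ∨ rel α β y x
  symm := ⟨fun _ _ h => h.symm⟩
  loopless := ⟨fun x h => by cases x <;> simp [rel] at h⟩

theorem grid_triangleFree (α : P → T → Prop) (β : P → U → Prop) (x y z : GV T U P) :
    ¬ ((grid α β).Adj x y ∧ (grid α β).Adj y z ∧ (grid α β).Adj x z) := by
  rintro ⟨h1, h2, h3⟩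
  simp only [grid] at h1 h2 h3
  cases x <;> cases y <;> simp [rel] at h1 <;> cases z <;> simp [rel] at h2 h3 <;>
    first
    | exact h1 _ h2 h3
    | exact h1 _ h3 h2
    | exact h2 _ h1 h3
    | exact h2 _ h3 h1
    | exact h3 _ h1 h2
    | exact h3 _ h2 h1

/-- The properties of the incidence relations that make the grid graph work. -/
structure GoodInc (α : P → T → Prop) (β : P → U → Prop) : Prop where
  a1 : ∀ a, ∃ p, α p a
  b1 : ∀ b, ∃ p, β p b
  a2 : ∀ p, ∃ a, α p a
  b2 : ∀ p, ∃ b, β p b
  e1 : ∀ b, ∃ a, ∀ p, α p a → ¬ β p b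
  e2 : ∀ a, ∃ b, ∀ p, α p a → ¬ β p b
  c1 : ∀ p a, ¬ α p a → ∃ b, β p b ∧ ∀ p', α p' a → ¬ β p' b
  c2 : ∀ p b, ¬ β p b → ∃ a, α p a ∧ ∀ p', α p' a → ¬ β p' b
  tp : ∀ p p', p ≠ p' → ∃ a, ¬ (α p a ↔ α p' a)
  tt : ∀ a a', a ≠ a' → (∃ p, ¬ (α p a ↔ α p a')) ∨
    ∃ b, ¬ ((∀ p, α p a → ¬ β p b) ↔ (∀ p, α p a' → ¬ β p b))
  tu : ∀ b b', b ≠ b' → (∃ p, ¬ (β p b ↔ β p b')) ∨
    ∃ a, ¬ ((∀ p, α p a → ¬ β p b) ↔ (∀ p, α p a → ¬ β p b'))

theorem grid_common (α : P → T → Prop) (β : P → U → Prop) (h : GoodInc α β)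
    [Nonempty P] (x y : GV T U P) (hxy : x ≠ y) (hn : ¬ (grid α β).Adj x y) :
    ∃ z, (grid α β).Adj x z ∧ (grid α β).Adj y z := by
  obtain ⟨p0⟩ := ‹Nonempty P›
  have key : ∀ x y : GV T U P, x ≠ y → ¬ (rel α β x y ∨ rel α β y x) →
      (∃ z, (rel α β x z ∨ rel α β z x) ∧ (rel α β y z ∨ rel α β z y)) ∨
      (∃ z, (rel α β x z ∨ rel α β z x) ∧ (rel α β y z ∨ rel α β z y)) := by
    intro x y hxy hn
    cases x with
    | v =>
      cases y with
      | v => exact absurd rfl hxy
      | xS => simp [rel] at hn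
      | xT => simp [rel] at hn
      | xU => simp [rel] at hn
      | t a => exact Or.inl ⟨xT, by simp [rel]⟩
      | u b => exact Or.inl ⟨xU, by simp [rel]⟩
      | w p => exact Or.inl ⟨xS, by simp [rel]⟩
    | xS =>
      cases y with
      | v => simp [rel] at hn
      | xS => exact absurd rfl hxy
      | xT => exact Or.inl ⟨v, by simp [rel]⟩
      | xU => exact Or.inl ⟨v, by simp [rel]⟩
      | t a => obtain ⟨p, hp⟩ := h.a1 a; exact Or.inl ⟨w p, by simp [rel, hp]⟩
      | u b => obtain ⟨p, hp⟩ := h.b1 b; exact Or.inl ⟨w p, by simp [rel, hp]⟩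
      | w p => simp [rel] at hn
    | xT =>
      cases y with
      | v => simp [rel] at hn
      | xS => exact Or.inl ⟨v, by simp [rel]⟩
      | xT => exact absurd rfl hxy
      | xU => exact Or.inl ⟨v, by simp [rel]⟩
      | t a => simp [rel] at hn
      | u b => obtain ⟨a, ha⟩ := h.e1 b; exact Or.inl ⟨t a, by simp only [rel]; exact ⟨Or.inl trivial, Or.inr ha⟩⟩
      | w p => obtain ⟨a, ha⟩ := h.a2 p; exact Or.inl ⟨t a, by simp [rel, ha]⟩
    | xU =>
      cases y with
      | v => simp [rel] at hn
      | xS => exact Or.inl ⟨v, by simp [rel]⟩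
      | xT => exact Or.inl ⟨v, by simp [rel]⟩
      | xU => exact absurd rfl hxy
      | t a => obtain ⟨b, hb⟩ := h.e2 a; exact Or.inl ⟨u b, by simp only [rel]; exact ⟨Or.inl trivial, Or.inl hb⟩⟩
      | u b => simp [rel] at hn
      | w p => obtain ⟨b, hb⟩ := h.b2 p; exact Or.inl ⟨u b, by simp [rel, hb]⟩
    | t a =>
      cases y with
      | v => exact Or.inl ⟨xT, by simp [rel]⟩
      | xS => obtain ⟨p, hp⟩ := h.a1 a; exact Or.inl ⟨w p, by simp [rel, hp]⟩
      | xT => simp [rel] at hn
      | xU => obtain ⟨b, hb⟩ := h.e2 a; exact Or.inl ⟨u b, by simp only [rel]; exact ⟨Or.inl hb, Or.inl trivial⟩⟩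
      | t a' => exact Or.inl ⟨xT, by simp [rel]⟩
      | u b =>
        simp only [rel, or_false, not_forall, not_not] at hn
        obtain ⟨p, hp, hp'⟩ := hn
        exact Or.inl ⟨w p, by simp [rel, hp, hp']⟩
      | w p =>
        have hn' : ¬ α p a := by simpa [rel] using hn
        obtain ⟨b, hb, hb'⟩ := h.c1 p a hn'
        exact Or.inl ⟨u b, by simp only [rel]; exact ⟨Or.inl hb', Or.inl hb⟩⟩
    | u b =>
      cases y with
      | v => exact Or.inl ⟨xU, by simp [rel]⟩
      | xS => obtain ⟨p, hp⟩ := h.b1 b; exact Or.inl ⟨w p, by simp [rel, hp]⟩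
      | xT => obtain ⟨a, ha⟩ := h.e1 b; exact Or.inl ⟨t a, by simp only [rel]; exact ⟨Or.inr ha, Or.inl trivial⟩⟩
      | xU => simp [rel] at hn
      | t a =>
        simp only [rel, false_or, not_forall, not_not] at hn
        obtain ⟨p, hp, hp'⟩ := hn
        exact Or.inl ⟨w p, by simp [rel, hp, hp']⟩
      | u b' => exact Or.inl ⟨xU, by simp [rel]⟩
      | w p =>
        have hn' : ¬ β p b := by simpa [rel] using hn
        obtain ⟨a, ha, ha'⟩ := h.c2 p b hn'
        exact Or.inl ⟨t a, by simp only [rel]; exact ⟨Or.inr ha', Or.inl ha⟩⟩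
    | w p =>
      cases y with
      | v => exact Or.inl ⟨xS, by simp [rel]⟩
      | xS => simp [rel] at hn
      | xT => obtain ⟨a, ha⟩ := h.a2 p; exact Or.inl ⟨t a, by simp [rel, ha]⟩
      | xU => obtain ⟨b, hb⟩ := h.b2 p; exact Or.inl ⟨u b, by simp [rel, hb]⟩
      | t a =>
        have hn' : ¬ α p a := by simpa [rel] using hn
        obtain ⟨b, hb, hb'⟩ := h.c1 p a hn'
        exact Or.inl ⟨u b, by simp only [rel]; exact ⟨Or.inl hb, Or.inl hb'⟩⟩
      | u b =>
        have hn' : ¬ β p b := by simpa [rel] using hn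
        obtain ⟨a, ha, ha'⟩ := h.c2 p b hn'
        exact Or.inl ⟨t a, by simp only [rel]; exact ⟨Or.inl ha, Or.inr ha'⟩⟩
      | w p' => exact Or.inl ⟨xS, by simp [rel]⟩
  rcases key x y hxy hn with h' | h' <;> exact h'

theorem grid_twinFree (α : P → T → Prop) (β : P → U → Prop) (h : GoodInc α β) [Nonempty P] :
    TwinFree (grid α β) := by
  obtain ⟨p0⟩ := ‹Nonempty P›
  intro x y hxy heq
  have hn : ¬ (grid α β).Adj x y := by
    intro hadj
    have h1 : y ∈ (grid α β).neighborSet x := hadj
    rw [heq] at h1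
    exact (grid α β).irrefl ((SimpleGraph.mem_neighborSet _ _ _).1 h1)
  have hiff : ∀ z, (rel α β x z ∨ rel α β z x) ↔ (rel α β y z ∨ rel α β z y) := by
    intro z
    have := congrArg (fun s : Set (GV T U P) => z ∈ s) heq
    exact iff_of_eq this
  cases x with
  | v =>
    cases y with
    | v => exact absurd rfl hxy
    | xS => simpa [rel] using hiff xS
    | xT => simpa [rel] using hiff xT
    | xU => simpa [rel] using hiff xU
    | t a => simpa [rel] using hiff xS
    | u b => simpa [rel] using hiff xS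
    | w p => simpa [rel] using hiff xT
  | xS =>
    cases y with
    | v => simpa [rel] using hiff v
    | xS => exact absurd rfl hxy
    | xT => simpa [rel] using hiff (w p0)
    | xU => simpa [rel] using hiff (w p0)
    | t a => simpa [rel] using hiff v
    | u b => simpa [rel] using hiff v
    | w p => simpa [rel] using hiff v
  | xT =>
    cases y with
    | v => simpa [rel] using hiff v
    | xS => simpa [rel] using hiff (w p0)
    | xT => exact absurd rfl hxy
    | xU => obtain ⟨a, _⟩ := h.a2 p0; simpa [rel] using hiff (t a)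
    | t a => simpa [rel] using hiff v
    | u b => simpa [rel] using hiff v
    | w p => simpa [rel] using hiff v
  | xU =>
    cases y with
    | v => simpa [rel] using hiff v
    | xS => simpa [rel] using hiff (w p0)
    | xT => obtain ⟨a, _⟩ := h.a2 p0; simpa [rel] using hiff (t a)
    | xU => exact absurd rfl hxy
    | t a => simpa [rel] using hiff v
    | u b => simpa [rel] using hiff v
    | w p => simpa [rel] using hiff v
  | t a =>
    cases y with
    | v => simpa [rel] using hiff xS
    | xS => simpa [rel] using hiff v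
    | xT => simpa [rel] using hiff v
    | xU => simpa [rel] using hiff v
    | t a' =>
      have hne : a ≠ a' := fun h' => hxy (by rw [h'])
      rcases h.tt a a' hne with ⟨p, hp⟩ | ⟨b, hb⟩
      · exact hp (by simpa [rel] using hiff (w p))
      · apply hb
        have := hiff (u b)
        simpa only [rel, or_false] using this
    | u b => simpa [rel] using hiff xT
    | w p => simpa [rel] using hiff xT
  | u b =>
    cases y with
    | v => simpa [rel] using hiff xS
    | xS => simpa [rel] using hiff v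
    | xT => simpa [rel] using hiff v
    | xU => simpa [rel] using hiff v
    | t a => simpa [rel] using hiff xT
    | u b' =>
      have hne : b ≠ b' := fun h' => hxy (by rw [h'])
      rcases h.tu b b' hne with ⟨p, hp⟩ | ⟨a, ha⟩
      · exact hp (by simpa [rel] using hiff (w p))
      · apply ha
        have := hiff (t a)
        simpa only [rel, false_or] using this
    | w p => simpa [rel] using hiff xU
  | w p =>
    cases y with
    | v => simpa [rel] using hiff xT
    | xS => simpa [rel] using hiff v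
    | xT => simpa [rel] using hiff v
    | xU => simpa [rel] using hiff v
    | t a => simpa [rel] using hiff xT
    | u b => simpa [rel] using hiff xU
    | w p' =>
      have hne : p ≠ p' := fun h' => hxy (by rw [h'])
      obtain ⟨a, ha⟩ := h.tp p p' hne
      exact ha (by simpa [rel] using hiff (t a))

end GV

end Pool.Agent.TwinSat
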