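import Mathlib
import Pool.Agent.TwinSat.Grid

set_option autoImplicit false

namespace Pool.Agent.TwinSat

open SimpleGraph Finset

namespace GV

variable {T U P : Type}

/-- the vertices as a sum type -/
def equivSum : GV T U P ≃ Fin 4 ⊕ (T ⊕ (U ⊕ P)) where
  toFun
    | v => .inl 0
    | xS => .inl 1
    | xT => .inl 2
    | xU => .inl 3
    | t a => .inr (.inl a)
    | u b => .inr (.inr (.inl b))
    | w p => .inr (.inr (.inr p))
  invFun
    | .inl 0 => v
    | .inl 1 => xS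
    | .inl 2 => xT
    | .inl 3 => xU
    | .inr (.inl a) => t a
    | .inr (.inr (.inl b)) => u b
    | .inr (.inr (.inr p)) => w p
  left_inv x := by cases x <;> rfl
  right_inv x := by
    rcases x with i | a | b | p
    · fin_cases i <;> rfl
    · rfl
    · rfl
    · rfl

noncomputable instance [Fintype T] [Fintype U] [Fintype P] : Fintype (GV T U P) :=
  Fintype.ofEquiv _ (equivSum (T := T) (U := U) (P := P)).symm

theorem card_GV [Fintype T] [Fintype U] [Fintype P] :
    Fintype.card (GV T U P) = 4 + (Fintype.card T + (Fintype.card U + Fintype.card P)) := by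
  rw [Fintype.card_congr equivSum]
  simp

/-- the four hubs -/
def hub : Fin 4 → GV T U P
  | 0 => v
  | 1 => xS
  | 2 => xT
  | 3 => xU

theorem grid_edges [Fintype T] [Fintype U] [Fintype P] (α : P → T → Prop) (β : P → U → Prop)
    (τ : P → Fin 2 → T) (σ : P → Fin 2 → U) (hτ : ∀ p a, α p a → ∃ k, τ p k = a)
    (hσ : ∀ p b, β p b → ∃ k, σ p k = b) :
    (grid α β).edgeSet.ncard ≤ 4 * Fintype.card (GV T U P) + 4 * Fintype.card P +
      Fintype.card T * Fintype.card U := by
  classical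
  let S1 : Set (Sym2 (GV T U P)) := (fun q : Fin 4 × GV T U P => s(hub q.1, q.2)) '' Set.univ
  let S2 : Set (Sym2 (GV T U P)) := (fun q : P × Fin 2 => s(w q.1, t (τ q.1 q.2))) '' Set.univ
  let S3 : Set (Sym2 (GV T U P)) := (fun q : P × Fin 2 => s(w q.1, u (σ q.1 q.2))) '' Set.univ
  let S4 : Set (Sym2 (GV T U P)) := (fun q : T × U => s(t q.1, u q.2)) '' Set.univ
  have key : ∀ x y : GV T U P, rel α β x y → s(x, y) ∈ S1 ∪ S2 ∪ S3 ∪ S4 := by
    intro x y h
    cases x with
    | v => exact Or.inl (Or.inl (Or.inl ⟨(0, y), trivial, rfl⟩))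
    | xS => exact Or.inl (Or.inl (Or.inl ⟨(1, y), trivial, rfl⟩))
    | xT => exact Or.inl (Or.inl (Or.inl ⟨(2, y), trivial, rfl⟩))
    | xU => exact Or.inl (Or.inl (Or.inl ⟨(3, y), trivial, rfl⟩))
    | t a =>
      cases y with
      | u b => exact Or.inr ⟨(a, b), trivial, rfl⟩
      | _ => simp [rel] at h
    | u b => cases y <;> simp [rel] at h
    | w p =>
      cases y with
      | t a =>
        obtain ⟨k, rfl⟩ := hτ p a (by simpa [rel] using h)
        exact Or.inl (Or.inl (Or.inr ⟨(p, k), trivial, rfl⟩))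
      | u b =>
        obtain ⟨k, rfl⟩ := hσ p b (by simpa [rel] using h)
        exact Or.inl (Or.inr ⟨(p, k), trivial, rfl⟩)
      | _ => simp [rel] at h
  have hsub : (grid α β).edgeSet ⊆ S1 ∪ S2 ∪ S3 ∪ S4 := by
    intro s
    induction s using Sym2.ind with
    | _ x y =>
      intro h
      rcases h with h | h
      · exact key x y h
      · rw [Sym2.eq_swap]; exact key y x h
  have c1 : S1.ncard ≤ 4 * Fintype.card (GV T U P) := by
    refine (Set.ncard_image_le Set.finite_univ).trans ?_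
    rw [Set.ncard_univ, Nat.card_eq_fintype_card, Fintype.card_prod, Fintype.card_fin]
  have c2 : S2.ncard ≤ Fintype.card P * 2 := by
    refine (Set.ncard_image_le Set.finite_univ).trans ?_
    rw [Set.ncard_univ, Nat.card_eq_fintype_card, Fintype.card_prod, Fintype.card_fin]
  have c3 : S3.ncard ≤ Fintype.card P * 2 := by
    refine (Set.ncard_image_le Set.finite_univ).trans ?_
    rw [Set.ncard_univ, Nat.card_eq_fintype_card, Fintype.card_prod, Fintype.card_fin]
  have c4 : S4.ncard ≤ Fintype.card T * Fintype.card U := by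
    refine (Set.ncard_image_le Set.finite_univ).trans ?_
    rw [Set.ncard_univ, Nat.card_eq_fintype_card, Fintype.card_prod]
  calc (grid α β).edgeSet.ncard ≤ (S1 ∪ S2 ∪ S3 ∪ S4).ncard :=
        Set.ncard_le_ncard hsub (Set.toFinite _)
    _ ≤ (S1 ∪ S2 ∪ S3).ncard + S4.ncard := Set.ncard_union_le _ _
    _ ≤ ((S1 ∪ S2).ncard + S3.ncard) + S4.ncard := by
        gcongr; exact Set.ncard_union_le _ _
    _ ≤ ((S1.ncard + S2.ncard) + S3.ncard) + S4.ncard := by
        gcongr; exact Set.ncard_union_le _ _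
    _ ≤ _ := by omega

end GV

section

variable {q : ℕ}

/-- coordinates of a pair -/
def coord {q : ℕ} (p : Fin q × Fin q) (k : Fin 2) : Fin q := if k = 0 then p.1 else p.2

theorem goodInc_grid (q : ℕ) (I : Finset (Fin (q + 2) × Fin (q + 2)))
    (h0 : ∀ i, (i, i) ∈ I) (h1 : ∀ i : Fin (q + 2), (i, i + 1) ∈ I) :
    GV.GoodInc (P := {p // p ∈ I}) (T := Fin 2 × Fin (q + 2)) (U := Fin 2 × Fin (q + 2))
      (fun p a => coord p.1 a.1 = a.2) (fun p a => coord p.1 a.1 = a.2) := by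
  have hne : ∀ i : Fin (q + 2), i + 1 ≠ i := fun i h => by
    have : (1 : Fin (q + 2)) = 0 := by
      have h2 : i + 1 = i + 0 := by rw [h, add_zero]
      exact add_left_cancel h2
    exact absurd this (by simp)
  have hcd : ∀ (c : Fin (q + 2)) (k : Fin 2), coord (c, c) k = c := by
    intro c k; simp [coord]
  have hex : ∀ (k : Fin 2) (c : Fin (q + 2)), ∃ p : {p // p ∈ I}, coord p.1 k = c :=
    fun k c => ⟨⟨(c, c), h0 c⟩, hcd c k⟩
  have fin2 : ∀ k : Fin 2, k = 0 ∨ k = 1 := by decide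
  have hsep : ∀ c c' : Fin (q + 2), ∃ p : {p // p ∈ I}, coord p.1 0 = c ∧ coord p.1 1 ≠ c' := by
    intro c c'
    by_cases hcc : c = c'
    · refine ⟨⟨(c, c + 1), h1 c⟩, by simp [coord], ?_⟩
      simp only [coord, one_ne_zero, if_false]
      rw [← hcc]; exact hne c
    · exact ⟨⟨(c, c), h0 c⟩, by simp [coord], by simpa [coord] using hcc⟩
  have htt : ∀ a a' : Fin 2 × Fin (q + 2), a ≠ a' →
      (∃ p : {p // p ∈ I}, ¬ (coord p.1 a.1 = a.2 ↔ coord p.1 a'.1 = a'.2)) ∨
        (a.1 = a'.1 ∧ a.2 ≠ a'.2) := by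
    rintro ⟨k, c⟩ ⟨k', c'⟩ haa
    by_cases hk : k = k'
    · right
      refine ⟨hk, fun h => haa ?_⟩
      rw [Prod.mk.injEq]; exact ⟨hk, h⟩
    · left
      rcases fin2 k with rfl | rfl <;> rcases fin2 k' with rfl | rfl
      · exact absurd rfl hk
      · obtain ⟨p, hp1, hp2⟩ := hsep c c'
        exact ⟨p, fun h => hp2 (h.1 hp1)⟩
      · obtain ⟨p, hp1, hp2⟩ := hsep c' c
        exact ⟨p, fun h => hp2 (h.2 hp1)⟩
      · exact absurd rfl hk
  refine ⟨fun a => hex a.1 a.2, fun a => hex a.1 a.2, fun p => ⟨(0, coord p.1 0), rfl⟩,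
    fun p => ⟨(0, coord p.1 0), rfl⟩, ?_, ?_, ?_, ?_, ?_, ?_, ?_⟩
  · rintro ⟨k, c⟩
    exact ⟨(k, c + 1), fun p hp hp' => hne c (hp.symm.trans hp')⟩
  · rintro ⟨k, c⟩
    exact ⟨(k, c + 1), fun p hp hp' => hne c (hp'.symm.trans hp)⟩
  · rintro p ⟨k, c⟩ hn
    exact ⟨(k, coord p.1 k), rfl, fun p' h1 h2 => hn (h2.symm.trans h1)⟩
  · rintro p ⟨k, c⟩ hn
    exact ⟨(k, coord p.1 k), rfl, fun p' h1 h2 => hn (h1.symm.trans h2)⟩
  · intro p p' hpp
    by_contra hcon
    push Not at hcon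
    apply hpp
    have e0 := (hcon (0, coord p.1 0)).1 rfl
    have e1 := (hcon (1, coord p.1 1)).1 rfl
    apply Subtype.ext
    apply Prod.ext
    · simpa [coord] using e0.symm
    · simpa [coord] using e1.symm
  · rintro a a' haa
    rcases htt a a' haa with h | ⟨h2, h3⟩
    · exact Or.inl h
    · right
      refine ⟨a, fun h => ?_⟩
      have h4 : ∀ p : {p // p ∈ I}, coord p.1 a'.1 = a'.2 → ¬ coord p.1 a.1 = a.2 :=
        fun p hp hp' => h3 (by rw [← hp, ← hp', h2])
      obtain ⟨p, hp⟩ := hex a.1 a.2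
      exact (h.2 h4) p hp hp
  · rintro a a' haa
    rcases htt a a' haa with h | ⟨h2, h3⟩
    · exact Or.inl h
    · right
      refine ⟨a, fun h => ?_⟩
      have h4 : ∀ p : {p // p ∈ I}, coord p.1 a.1 = a.2 → ¬ coord p.1 a'.1 = a'.2 :=
        fun p hp hp' => h3 (by rw [← hp, ← hp', h2])
      obtain ⟨p, hp⟩ := hex a.1 a.2
      exact (h.2 h4) p hp hp

end

theorem triangle_linear {W : Type*} [Fintype W] (H : SimpleGraph W) (h : TriangleCond H) :
    LinearTsat H := by
  classical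
  obtain ⟨X, x, y, z, hxX, hyX, hzX, hxy, hyz, hxz, h1, h2, h3⟩ := h
  have hXW : X.card ≤ Fintype.card W := Finset.card_le_univ X
  refine ⟨X.card + 12, X.card + (Fintype.card W + 10) ^ 2, ?_⟩
  intro n hn
  obtain ⟨N, hN⟩ : ∃ N, n = X.card + N := ⟨n - X.card, by omega⟩
  have hNb : (Fintype.card W + 10) ^ 2 ≤ N := by omega
  have hsq : Fintype.card W + 10 ≤ Nat.sqrt N := Nat.le_sqrt'.2 hNb
  obtain ⟨q, hq⟩ : ∃ q, Nat.sqrt N = q + 2 := ⟨Nat.sqrt N - 2, by omega⟩
  have hq1 : (q + 2) * (q + 2) ≤ N := by rw [← hq]; exact Nat.sqrt_le N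
  have hq2 : N < (q + 3) * (q + 3) := by
    have := Nat.lt_succ_sqrt N
    rw [hq] at this
    exact this
  -- the index set
  let Z : Finset (Fin (q + 2) × Fin (q + 2)) :=
    univ.image (fun i => (i, i)) ∪ univ.image (fun i => (i, i + 1))
  have hZ : Z.card ≤ 2 * (q + 2) := by
    calc Z.card ≤ (univ.image (fun i : Fin (q + 2) => (i, i))).card +
          (univ.image (fun i : Fin (q + 2) => (i, i + 1))).card := Finset.card_union_le _ _
      _ ≤ (univ : Finset (Fin (q + 2))).card + (univ : Finset (Fin (q + 2))).card :=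
          add_le_add Finset.card_image_le Finset.card_image_le
      _ = 2 * (q + 2) := by simp; ring
  have hcardle : 4 * (q + 2) + 4 + 2 * (q + 2) ≤ N := by nlinarith
  obtain ⟨m, hm⟩ : ∃ m, N = 4 + 4 * (q + 2) + m := ⟨N - (4 + 4 * (q + 2)), by omega⟩
  have hm1 : Z.card ≤ m := by omega
  have hm2 : m ≤ (univ : Finset (Fin (q + 2) × Fin (q + 2))).card := by
    rw [Finset.card_univ, Fintype.card_prod, Fintype.card_fin]
    nlinarith
  obtain ⟨I, hZI, -, hI⟩ := Finset.exists_subsuperset_card_eq (Finset.subset_univ Z) hm1 hm2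
  have h0 : ∀ i, (i, i) ∈ I := fun i => hZI (Finset.mem_union_left _
    (Finset.mem_image_of_mem _ (Finset.mem_univ i)))
  have h1' : ∀ i : Fin (q + 2), (i, i + 1) ∈ I := fun i => hZI (Finset.mem_union_right _
    (Finset.mem_image_of_mem _ (Finset.mem_univ i)))
  have hgood := goodInc_grid q I h0 h1'
  let α : {p // p ∈ I} → Fin 2 × Fin (q + 2) → Prop := fun p a => coord p.1 a.1 = a.2
  let R := GV.grid α α
  have hPne : Nonempty {p // p ∈ I} := ⟨⟨(0, 0), h0 0⟩⟩
  have hVne : Nonempty (GV (Fin 2 × Fin (q + 2)) (Fin 2 × Fin (q + 2)) {p // p ∈ I}) := ⟨GV.v⟩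
  have hcardV : Fintype.card (GV (Fin 2 × Fin (q + 2)) (Fin 2 × Fin (q + 2)) {p // p ∈ I}) = N := by
    rw [GV.card_GV]
    simp only [Fintype.card_prod, Fintype.card_fin, Fintype.card_coe]
    omega
  -- the matching
  let M : Fin (q + 2) × Bool → GV (Fin 2 × Fin (q + 2)) (Fin 2 × Fin (q + 2)) {p // p ∈ I} :=
    fun ib => if ib.2 then GV.w ⟨(ib.1, ib.1), h0 ib.1⟩ else GV.t (0, ib.1)
  have hM : Function.Injective M := by
    rintro ⟨i, bi⟩ ⟨j, bj⟩ hij
    cases bi <;> cases bj <;> simp [M] at hij ⊢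
    · exact hij
    · exact hij
  have hMa : ∀ i, R.Adj (M (i, true)) (M (i, false)) := by
    intro i
    left
    simp [M, GV.rel, α, coord]
  have hsat : Saturated H (hubJoin X.card R) := by
    apply hubJoin_saturated H R hXW
    · intro Y hY f hf hadj
      obtain ⟨a, b, c, ha, hb, hc, hab, hbc, hac⟩ := h3 Y hY
      exact GV.grid_triangleFree α α (f a) (f b) (f c)
        ⟨hadj a b ha hb hab, hadj b c hb hc hbc, hadj a c ha hc hac⟩
    · intro u v huv hnadj
      obtain ⟨c, hc1, hc2⟩ := GV.grid_common α α hgood u v huv hnadj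
      exact ⟨X, rfl, tri_embed R M hM hMa (by omega) H X x y z hxX hyX hzX hxy hyz hxz h1 h2
        u v c huv hc1 hc2⟩
  have htw : TwinFree (hubJoin X.card R) :=
    hubJoin_twinFree _ _ (GV.grid_twinFree α α hgood)
  have hedge : R.edgeSet.ncard ≤ 12 * N := by
    have h4 := GV.grid_edges α α (fun p k => (k, coord p.1 k)) (fun p k => (k, coord p.1 k))
      (fun p a ha => ⟨a.1, Prod.ext rfl ha⟩) (fun p a ha => ⟨a.1, Prod.ext rfl ha⟩)
    have h5 : Fintype.card (Fin 2 × Fin (q + 2)) * Fintype.card (Fin 2 × Fin (q + 2)) ≤ 4 * N := by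
      simp only [Fintype.card_prod, Fintype.card_fin]
      nlinarith
    have h6 : Fintype.card {p // p ∈ I} ≤ N := by
      rw [Fintype.card_coe, hI]; omega
    rw [hcardV] at h4
    have h7 : R.edgeSet.ncard ≤ 4 * N + 4 * Fintype.card {p // p ∈ I} +
      Fintype.card (Fin 2 × Fin (q + 2)) * Fintype.card (Fin 2 × Fin (q + 2)) := h4
    omega
  have hcard : Fintype.card (Fin X.card ⊕
      GV (Fin 2 × Fin (q + 2)) (Fin 2 × Fin (q + 2)) {p // p ∈ I}) = n := by
    rw [Fintype.card_sum, hcardV, Fintype.card_fin, hN]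
  obtain ⟨G, h4, h5, h6⟩ := transport H _ hcard hsat htw (hubJoin_edges X.card _ hedge)
  refine ⟨G, h4, h5, h6.trans ?_⟩
  rw [hcardV, ← hN]
  calc X.card * n + 12 * N ≤ X.card * n + 12 * n :=
        Nat.add_le_add_left (Nat.mul_le_mul_left _ (by omega)) _
    _ = (X.card + 12) * n := by ring

end Pool.Agent.TwinSat
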