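import Mathlib
import Pool.Agent.TwinSat.Bridge
import Pool.Agent.TwinSat.Tri

set_option autoImplicit false

namespace Pool.Agent.TwinSat

open SimpleGraph Finset

theorem maxConnected_cond {W : Type*} [Fintype W] (H : SimpleGraph W)
    [DecidableRel H.Adj] (hW : 3 ≤ Fintype.card W) (h : MaxConnected H) :
    BridgeCond H ∨ TriangleCond H := by
  classical
  by_cases hcomp : ∀ u v : W, u ≠ v → H.Adj u v
  · right
    obtain ⟨s, hs, hsc⟩ := Finset.exists_subset_card_eq (show 3 ≤ (univ : Finset W).card by
      rwa [Finset.card_univ])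
    obtain ⟨x, y, z, hxy, hxz, hyz, rfl⟩ := Finset.card_eq_three.1 hsc
    refine ⟨univ \ {x, y, z}, x, y, z, by simp, by simp, by simp, hcomp _ _ hxy, hcomp _ _ hyz,
      hcomp _ _ hxz, ?_, ?_, ?_⟩
    · intro u hu h1 h2 h3
      exact absurd hu (by simp [h1, h2, h3])
    · intro u v w hu _ _ h1 h2 h3
      exact absurd hu (by simp [h1, h2, h3])
    · intro Y hY
      have hYc : (univ \ Y).card = 3 := by
        rw [Finset.card_sdiff_of_subset (Finset.subset_univ _), hY,
          Finset.card_sdiff_of_subset (Finset.subset_univ _), hsc, Finset.card_univ]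
        omega
      obtain ⟨a, b, c, hab, hac, hbc, hset⟩ := Finset.card_eq_three.1 hYc
      have ha : a ∈ univ \ Y := by rw [hset]; simp
      have hb : b ∈ univ \ Y := by rw [hset]; simp
      have hc : c ∈ univ \ Y := by rw [hset]; simp
      exact ⟨a, b, c, by simpa using ha, by simpa using hb, by simpa using hc,
        hcomp _ _ hab, hcomp _ _ hbc, hcomp _ _ hac⟩
  · left
    push Not at hcomp
    obtain ⟨u₀, w₀, huw, hnadj⟩ := hcomp
    obtain ⟨hδ, hconn⟩ := h
    have hWne : Nonempty W := ⟨u₀⟩
    have hdeg : H.minDegree + 2 ≤ Fintype.card W := by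
      have h1 : H.minDegree ≤ H.degree u₀ := H.minDegree_le_degree u₀
      have h2 : (H.neighborFinset u₀).card + 2 ≤ Fintype.card W := by
        have h3 : H.neighborFinset u₀ ⊆ univ \ {u₀, w₀} := by
          intro x hx
          rw [SimpleGraph.mem_neighborFinset] at hx
          simp only [mem_sdiff, mem_univ, true_and, mem_insert, mem_singleton, not_or]
          exact ⟨hx.ne.symm, fun h => hnadj (h ▸ hx)⟩
        have h4 := Finset.card_le_card h3
        rw [Finset.card_sdiff_of_subset (Finset.subset_univ _), Finset.card_pair huw,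
          Finset.card_univ] at h4
        have h5 : 2 ≤ Fintype.card W := by omega
        omega
      rw [SimpleGraph.card_neighborFinset_eq_degree] at h2
      omega
    obtain ⟨v, hv⟩ := H.exists_minimal_degree_vertex
    have hvd : (H.neighborFinset v).card = H.minDegree := by
      rw [SimpleGraph.card_neighborFinset_eq_degree, hv]
    obtain ⟨w, hw⟩ : (H.neighborFinset v).Nonempty := Finset.card_pos.1 (by omega)
    have hvw : H.Adj v w := by rwa [SimpleGraph.mem_neighborFinset] at hw
    have hvN : v ∉ H.neighborFinset v := by simp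
    let X : Finset W := (H.neighborFinset v).erase w
    have hX : X.card + 1 = H.minDegree := by
      rw [Finset.card_erase_of_mem hw, hvd]; omega
    have hvX : v ∉ X := fun h => hvN (Finset.mem_of_mem_erase h)
    have hwX : w ∉ X := by simp [X]
    let D₂ : Finset W := univ \ (insert v X)
    have hD₂ : D₂.card + H.minDegree = Fintype.card W := by
      have h1 : D₂.card = Fintype.card W - (insert v X).card := by
        show (univ \ (insert v X)).card = _
        rw [Finset.card_sdiff_of_subset (Finset.subset_univ _), Finset.card_univ]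
      rw [Finset.card_insert_of_notMem hvX, hX] at h1
      omega
    have hmem2 : ∀ u, u ∈ D₂ ↔ u ≠ v ∧ u ∉ X := by
      intro u; simp [D₂]
    refine ⟨X, {v}, D₂, v, w, by simp, ?_, hvw, ?_, ?_, ?_, ?_, ?_, ?_, ?_, ?_⟩
    · rw [hmem2]; exact ⟨hvw.ne.symm, hwX⟩
    · rw [Finset.disjoint_singleton_left, hmem2]; simp
    · rw [Finset.disjoint_singleton_right]; exact hvX
    · rw [Finset.disjoint_left]
      intro u hu hu'
      exact ((hmem2 u).1 hu').2 hu
    · rw [Finset.card_singleton]; omega
    · intro u hu u' hu' hadj
      rw [Finset.mem_singleton] at hu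
      subst hu
      right
      refine ⟨rfl, ?_⟩
      by_contra hne
      exact hu' (Finset.mem_erase.2 ⟨hne, by rwa [SimpleGraph.mem_neighborFinset]⟩)
    · intro u hu u' hu' hadj
      by_cases h1 : u' = v
      · right
        refine ⟨?_, h1⟩
        by_contra hne
        have h2 : u ∈ X := Finset.mem_erase.2 ⟨hne, by
          rw [SimpleGraph.mem_neighborFinset, ← h1]; exact hadj.symm⟩
        exact ((hmem2 u).1 hu).2 h2
      · left
        exact (hmem2 u').2 ⟨h1, hu'⟩
    · intro S h1 h2 h3 h4
      exfalso
      obtain ⟨⟨a, ha⟩⟩ := h4.nonempty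
      have ha' : a ∈ S := ha
      have h5 : a ∉ X := Finset.disjoint_left.1 h1 ha'
      have h6 : a ∉ ({v} : Finset W) := Finset.disjoint_left.1 h2 ha'
      have h7 : a ∉ D₂ := Finset.disjoint_left.1 h3 ha'
      rw [Finset.mem_singleton] at h6
      exact h7 ((hmem2 a).2 ⟨h6, h5⟩)
    · intro Y hY
      refine ⟨univ \ Y, ?_, ?_, ?_⟩
      · exact Finset.sdiff_disjoint
      · have h8 : (univ \ Y).card = Fintype.card W - X.card := by
          rw [Finset.card_sdiff_of_subset (Finset.subset_univ _), hY, Finset.card_univ]
        rw [Finset.card_singleton, h8]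
        omega
      · have h1 := hconn Y (by omega)
        have h2 : ((univ \ Y : Finset W) : Set W) = (Y : Set W)ᶜ := by
          ext a; simp
        rw [h2]
        exact h1

theorem main {W : Type*} [Fintype W] (H : SimpleGraph W) [DecidableRel H.Adj]
    (h : BridgeCond H ∨ TriangleCond H ∨ (3 ≤ Fintype.card W ∧ MaxConnected H)) :
    LinearTsat H := by
  rcases h with h | h | ⟨h1, h2⟩
  · exact bridge_linear H h
  · exact triangle_linear H h
  · rcases maxConnected_cond H h1 h2 with h | h
    · exact bridge_linear H h
    · exact triangle_linear H h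

end Pool.Agent.TwinSat
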